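import Pool.Agent.Helper79.GL4.GoalsA

/-!
# GL4.SLT: transitivity of SL on triples (point, two lines through it) (MP_27a5f8_al)
-/

namespace GL4

open Module Submodule

section slt
variable {F : Type} [Field F] {W : Type} [AddCommGroup W] [Module F W] [FiniteDimensional F W]

/-- coordinates of a triple (point, two distinct lines through it) -/
theorem slt_coord {P L M : Submodule F W} (hP : Pt P) (hL : Ln L) (hM : Ln M) (hPL : P ≤ L)
    (hPM : P ≤ M) (hLM : L ≠ M) : ∃ v : Fin 3 → W, LinearIndependent F v ∧ P = F ∙ (v 0) ∧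
      L = (F ∙ (v 0)) ⊔ (F ∙ (v 1)) ∧ M = (F ∙ (v 0)) ⊔ (F ∙ (v 2)) := by
  obtain ⟨e1, h1, rfl⟩ := hP.exists_span
  have key : ∀ N : Submodule F W, Ln N → (F ∙ e1) ≤ N →
      ∃ e, e ∉ (F ∙ e1) ∧ e ∈ N ∧ N = (F ∙ e1) ⊔ (F ∙ e) := by
    intro N hN hle
    have hne : ¬ N ≤ (F ∙ e1) := by
      intro hc
      have h2 : N = F ∙ e1 := le_antisymm hc hle
      rw [Ln, h2, pt_span h1] at hN
      omega
    obtain ⟨e, he, he'⟩ := Set.not_subset.1 hne
    refine ⟨e, he', he, ?_⟩
    have hle2 : (F ∙ e1) ⊔ (F ∙ e) ≤ N :=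
      sup_le hle (by rw [span_singleton_le_iff_mem]; exact he)
    have he0 : e ≠ 0 := by rintro rfl; exact he' (zero_mem _)
    refine (Submodule.eq_of_le_of_finrank_eq hle2 ?_).symm
    have := finrank_sup_pt (U := F ∙ e1) (pt_span (F := F) he0)
      (fun hc => he' (by rwa [span_singleton_le_iff_mem] at hc))
    rw [this, pt_span h1, hN]
  obtain ⟨e2, h2, h2L, hL2⟩ := key L hL hPL
  obtain ⟨e3, h3, h3M, hM3⟩ := key M hM hPM
  have h3L : e3 ∉ L := by
    intro hc
    apply hLM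
    have hle : M ≤ L := by
      rw [hM3]
      exact sup_le hPL (by rw [span_singleton_le_iff_mem]; exact hc)
    exact (Submodule.eq_of_le_of_finrank_eq hle (by rw [hL, hM])).symm
  refine ⟨![e1, e2, e3], ?_, rfl, hL2, hM3⟩
  rw [linearIndependent_finSucc']
  have hi : Fin.init ![e1, e2, e3] = ![e1, e2] := by
    funext i; fin_cases i <;> rfl
  rw [hi]
  refine ⟨?_, ?_⟩
  · rw [LinearIndependent.pair_iff' h1]
    intro a ha
    exact h2 (mem_span_singleton.2 ⟨a, ha⟩)
  · have h4 : Set.range ![e1, e2] = {e1, e2} := by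
      simp [Set.pair_comm]
    rw [h4, Submodule.span_insert]
    rw [← hL2]
    exact h3L

/-- linear maps of determinant 1 between independent triples -/
theorem slt_map {v w : Fin 3 → W} (hv : LinearIndependent F v) (hw : LinearIndependent F w) :
    ∃ (g : W ≃ₗ[F] W) (c : F), LinearMap.det (g : W →ₗ[F] W) = 1 ∧ c ≠ 0 ∧
      g (v 0) = c • w 0 ∧ g (v 1) = w 1 ∧ g (v 2) = w 2 := by
  obtain ⟨g, hg⟩ := Submodule.exists_linearEquiv_restrict_eq
    ((Basis.span hv).equiv (Basis.span hw) (Equiv.refl _))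
  have hg' : ∀ i, g (v i) = w i := by
    intro i
    have h1 := hg ((Basis.span hv) i)
    rw [Basis.equiv_apply, Basis.span_apply, Basis.span_apply] at h1
    exact h1.symm
  set d : F := LinearMap.det (g : W →ₗ[F] W) with hd
  have hd0 : d ≠ 0 := (LinearEquiv.isUnit_det' g).ne_zero
  obtain ⟨f, hf, hfk⟩ := Submodule.exists_le_ker_of_notMem (linearIndependent_finSucc.1 hw).2
  have f1 : f (w 1) = 0 := hfk (subset_span ⟨0, rfl⟩)
  have f2 : f (w 2) = 0 := hfk (subset_span ⟨1, rfl⟩)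
  set c : F := (d⁻¹ - 1) / f (w 0) with hc
  have hs : LinearMap.det (LinearMap.transvection f (c • w 0)) = d⁻¹ := by
    rw [LinearMap.transvection.det, map_smul, smul_eq_mul, hc, div_mul_cancel₀ _ hf]
    ring
  have hdet : LinearMap.det ((LinearMap.transvection f (c • w 0)) ∘ₗ (g : W →ₗ[F] W)) = 1 := by
    rw [LinearMap.det_comp, hs, ← hd, inv_mul_cancel₀ hd0]
  have hu : IsUnit (LinearMap.det ((LinearMap.transvection f (c • w 0)) ∘ₗ (g : W →ₗ[F] W))) := by
    rw [hdet]; exact isUnit_one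
  refine ⟨LinearEquiv.ofIsUnitDet (v := Module.finBasis F W) (v' := Module.finBasis F W)
    (f := (LinearMap.transvection f (c • w 0)) ∘ₗ (g : W →ₗ[F] W)) ?_, d⁻¹, ?_, inv_ne_zero hd0,
    ?_, ?_, ?_⟩
  · rw [← LinearMap.det_toMatrix (Module.finBasis F W)] at hu
    exact hu
  · rw [← hdet]
    congr 1
  · change LinearMap.transvection f (c • w 0) (g (v 0)) = _
    rw [LinearMap.transvection.apply, hg', smul_smul, hc, mul_div_cancel₀ _ hf, sub_smul, one_smul]
    abel
  · change LinearMap.transvection f (c • w 0) (g (v 1)) = _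
    rw [LinearMap.transvection.apply, hg', f1, zero_smul, add_zero]
  · change LinearMap.transvection f (c • w 0) (g (v 2)) = _
    rw [LinearMap.transvection.apply, hg', f2, zero_smul, add_zero]

theorem slt_aux {P L M P' L' M' : Submodule F W} (hP : Pt P) (hL : Ln L) (hM : Ln M)
    (hP' : Pt P') (hL' : Ln L') (hM' : Ln M') (hPL : P ≤ L)
    (hPM : P ≤ M) (hLM : L ≠ M) (hPL' : P' ≤ L')
    (hPM' : P' ≤ M') (hLM' : L' ≠ M') :
    ∃ g : W ≃ₗ[F] W, LinearMap.det (g : W →ₗ[F] W) = 1 ∧ im g P = P' ∧ im g L = L' ∧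
      im g M = M' := by
  obtain ⟨v, hv, rfl, rfl, rfl⟩ := slt_coord hP hL hM hPL hPM hLM
  obtain ⟨w, hw, rfl, rfl, rfl⟩ := slt_coord hP' hL' hM' hPL' hPM' hLM'
  obtain ⟨g, c, hg, hc, h0, h1, h2⟩ := slt_map hv hw
  have e0 : im g (F ∙ (v 0)) = F ∙ (w 0) := by
    rw [im_span_singleton, h0]
    exact span_singleton_smul_eq (IsUnit.mk0 c hc) _
  refine ⟨g, hg, e0, ?_, ?_⟩
  · rw [im_sup, e0, im_span_singleton, h1]
  · rw [im_sup, e0, im_span_singleton, h2]

end slt

theorem slt : SLT := by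
  intro F _ _ V _ _ _ K U hSL P L M P' L' M' hP hL hM hP' hL' hM' hPL hPM hLM hPL' hPM' hLM'
    hLU hMU hLU' hMU'
  have hPU : P ≤ U := hPL.trans hLU
  have hPU' : P' ≤ U := hPL'.trans hLU'
  have ne : ∀ {A B : Submodule F V}, A ≤ U → B ≤ U → A ≠ B →
      A.comap U.subtype ≠ B.comap U.subtype := by
    intro A B hA hB hAB hc
    apply hAB
    rw [← incl_restr hA, ← incl_restr hB, hc]
  obtain ⟨g, hg, g1, g2, g3⟩ := slt_aux (W := U)
    (P := P.comap U.subtype) (L := L.comap U.subtype) (M := M.comap U.subtype)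
    (P' := P'.comap U.subtype) (L' := L'.comap U.subtype) (M' := M'.comap U.subtype)
    (by rw [Pt, finrank_restr hPU]; exact hP) (by rw [Ln, finrank_restr hLU]; exact hL)
    (by rw [Ln, finrank_restr hMU]; exact hM)
    (by rw [Pt, finrank_restr hPU']; exact hP') (by rw [Ln, finrank_restr hLU']; exact hL')
    (by rw [Ln, finrank_restr hMU']; exact hM')
    ((restr_le_restr hPU).2 hPL) ((restr_le_restr hPU).2 hPM) (ne hLU hMU hLM)
    ((restr_le_restr hPU').2 hPL') ((restr_le_restr hPU').2 hPM') (ne hLU' hMU' hLM')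
  obtain ⟨k, hk, hkU, hkg⟩ := hSL g hg
  refine ⟨k, hk, ?_, ?_, ?_⟩
  · have := im_incl hkg (P.comap U.subtype)
    rw [g1, incl_restr hPU, incl_restr hPU'] at this
    exact this.symm
  · have := im_incl hkg (L.comap U.subtype)
    rw [g2, incl_restr hLU, incl_restr hLU'] at this
    exact this.symm
  · have := im_incl hkg (M.comap U.subtype)
    rw [g3, incl_restr hMU, incl_restr hMU'] at this
    exact this.symm

end GL4

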